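import Mathlib
import Pool.Agent.H875BS.Main

set_option autoImplicit false
open Pointwise

namespace Pool.Agent.Results.MP_c21415_co.EveryAlpha

open Finset Pool.Agent.H875BS

lemma mem_pow' (R : ℕ) : ∀ x ∈ gB ^ R, ∃ e : ℕ, e < 2 ^ R ∧ x = ⟨(e : ℚ), (R : ℤ)⟩ := by
  induction R with
  | zero =>
    intro x hx
    rw [pow_zero, Finset.mem_one] at hx
    exact ⟨0, by norm_num, by rw [hx, one_def]; simp⟩
  | succ R ih =>
    intro x hx
    rw [pow_succ] at hx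
    obtain ⟨y, hy, z, hz, rfl⟩ := Finset.mem_mul.1 hx
    obtain ⟨e, he, rfl⟩ := ih y hy
    obtain ⟨e', he', rfl⟩ := mem_gB hz
    refine ⟨e + 2 ^ R * e', ?_, ?_⟩
    · have : 2 ^ R * e' ≤ 2 ^ R * 1 := Nat.mul_le_mul_left _ he'
      rw [pow_succ]
      omega
    · rw [mul_def]
      ext
      · simp
      · simp

lemma mem_A {N : ℕ} {x : BS} (hx : x ∈ gA N 1) : ∃ m : ℕ, m < N ∧ x = ⟨(m : ℚ), 0⟩ := by
  obtain ⟨m, p, h1, h2, rfl⟩ := mem_gA hx
  have : p = 0 := by omega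
  subst this
  exact ⟨m, h1, by simp⟩

lemma card_AB (N R : ℕ) : (gA N 1 * gB ^ R).card ≤ N + 2 ^ R := by
  have hsub : gA N 1 * gB ^ R ⊆
      (range (N + 2 ^ R)).image (fun m : ℕ => (⟨(m : ℚ), (R : ℤ)⟩ : BS)) := by
    intro z hz
    obtain ⟨x, hx, y, hy, rfl⟩ := Finset.mem_mul.1 hz
    obtain ⟨m, hm, rfl⟩ := mem_A hx
    obtain ⟨e, he, rfl⟩ := mem_pow' R y hy
    simp only [Finset.mem_image, Finset.mem_range]
    refine ⟨m + e, by omega, ?_⟩
    rw [mul_def]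
    ext
    · simp
    · simp
  refine le_trans (Finset.card_le_card hsub) (le_trans Finset.card_image_le ?_)
  simp

lemma card_AbB (N R : ℕ) (b : BS) (hb : b ∈ gB ^ R) :
    (gA N 1 * {b} * gB ^ R).card ≤ N + (2 ^ R + 2 ^ R * 2 ^ R) := by
  obtain ⟨e0, he0, rfl⟩ := mem_pow' R b hb
  have hsub : gA N 1 * {(⟨(e0 : ℚ), (R : ℤ)⟩ : BS)} * gB ^ R ⊆
      (range (N + (2 ^ R + 2 ^ R * 2 ^ R))).image
        (fun m : ℕ => (⟨(m : ℚ), (R : ℤ) + R⟩ : BS)) := by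
    intro z hz
    obtain ⟨x, hx, y, hy, rfl⟩ := Finset.mem_mul.1 hz
    obtain ⟨x', hx', b', hb', rfl⟩ := Finset.mem_mul.1 hx
    rw [Finset.mem_singleton] at hb'
    subst hb'
    obtain ⟨m, hm, rfl⟩ := mem_A hx'
    obtain ⟨e, he, rfl⟩ := mem_pow' R y hy
    simp only [Finset.mem_image, Finset.mem_range]
    refine ⟨m + e0 + 2 ^ R * e, ?_, ?_⟩
    · have : 2 ^ R * e ≤ 2 ^ R * 2 ^ R := Nat.mul_le_mul_left _ he.le
      omega
    · rw [mul_def, mul_def]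
      ext
      · simp
      · simp
  refine le_trans (Finset.card_le_card hsub) (le_trans Finset.card_image_le ?_)
  simp

/-- There is a group `G` such that for every real `α > 1` and every real `c` there are finite
nonempty sets `A, B` in `G` satisfying (H) with parameter `α`, and such that for all large `h`
every nonempty `X ⊆ A` has `|X B^h| > α^(c h) |X|`. -/
theorem result :
    ∃ (G : Type) (_ : Group G) (_ : DecidableEq G), ∀ α : ℝ, 1 < α → ∀ c : ℝ,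
      ∃ A B : Finset G, A.Nonempty ∧ B.Nonempty ∧
        ((A * B).card : ℝ) < α * (A.card : ℝ) ∧
        (∀ b ∈ B, ((A * {b} * B).card : ℝ) ≤ α * (A.card : ℝ)) ∧
        ∃ h₀ : ℕ, ∀ h : ℕ, h₀ ≤ h → ∀ X : Finset G, X ⊆ A → X.Nonempty →
          α ^ (c * (h : ℝ)) * (X.card : ℝ) < ((X * B ^ h).card : ℝ) := by
  refine ⟨BS, inferInstance, inferInstance, fun α hα c => ?_⟩
  have hα0 : 0 < α := by linarith
  obtain ⟨R, hR⟩ := pow_unbounded_of_one_lt (2 * α ^ c) (one_lt_two : (1 : ℝ) < 2)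
  obtain ⟨N, hN⟩ := exists_nat_gt ((((2 ^ R + 2 ^ R * 2 ^ R : ℕ) : ℝ)) / (α - 1))
  have hα1 : 0 < α - 1 := by linarith
  rw [div_lt_iff₀ hα1] at hN
  have hq : (0 : ℝ) < ((2 ^ R + 2 ^ R * 2 ^ R : ℕ) : ℝ) := by positivity
  have hNpos : 0 < (N : ℝ) := by
    by_contra hc
    have : (N : ℝ) * (α - 1) ≤ 0 := mul_nonpos_of_nonpos_of_nonneg (not_lt.1 hc) hα1.le
    linarith
  have hN1 : 1 ≤ N := by
    have : 0 < N := by exact_mod_cast hNpos
    omega
  have hA : ((gA N 1).card : ℝ) = N := by rw [card_gA]; simp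
  have hBne : (gB ^ R).Nonempty := ⟨_, mem_pow R 0 (by positivity)⟩
  refine ⟨gA N 1, gB ^ R, ?_, hBne, ?_, ?_, N, fun h hh X hXA hX => ?_⟩
  · rw [← Finset.card_pos, card_gA]; omega
  · have h1 : ((gA N 1 * gB ^ R).card : ℝ) ≤ N + ((2 ^ R : ℕ) : ℝ) := by
      exact_mod_cast card_AB N R
    have h2 : ((2 ^ R : ℕ) : ℝ) ≤ ((2 ^ R + 2 ^ R * 2 ^ R : ℕ) : ℝ) := by
      exact_mod_cast Nat.le_add_right _ _
    rw [hA]
    linarith
  · intro b hb
    have h1 : ((gA N 1 * {b} * gB ^ R).card : ℝ) ≤ N + ((2 ^ R + 2 ^ R * 2 ^ R : ℕ) : ℝ) := by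
      exact_mod_cast card_AbB N R b hb
    rw [hA]
    linarith
  · have h1 : (2 : ℝ) ^ (R * h) ≤ ((X * (gB ^ R) ^ h).card : ℝ) := by
      rw [← pow_mul]
      have := le_trans (card_pow (R * h)) (card_mul X (gB ^ (R * h)) hX)
      exact_mod_cast this
    have h2 : (X.card : ℝ) ≤ N := by
      rw [← hA]
      exact_mod_cast Finset.card_le_card hXA
    have hc0 : 0 < α ^ c := Real.rpow_pos_of_pos hα0 c
    have h3 : (2 * α ^ c) ^ h ≤ (2 : ℝ) ^ (R * h) := by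
      rw [pow_mul]
      exact pow_le_pow_left₀ (by positivity) hR.le h
    have h4 : (2 * α ^ c) ^ h = 2 ^ h * α ^ (c * (h : ℝ)) := by
      rw [mul_pow, Real.rpow_mul hα0.le, Real.rpow_natCast]
    have h5 : (N : ℝ) < 2 ^ h := by
      have : N < 2 ^ h := lt_of_le_of_lt hh Nat.lt_two_pow_self
      exact_mod_cast this
    have h6 : 0 < α ^ (c * (h : ℝ)) := Real.rpow_pos_of_pos hα0 _
    calc α ^ (c * (h : ℝ)) * (X.card : ℝ) ≤ α ^ (c * (h : ℝ)) * N :=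
          mul_le_mul_of_nonneg_left h2 h6.le
      _ < α ^ (c * (h : ℝ)) * 2 ^ h := mul_lt_mul_of_pos_left h5 h6
      _ = (2 * α ^ c) ^ h := by rw [h4]; ring
      _ ≤ 2 ^ (R * h) := h3
      _ ≤ _ := h1

end Pool.Agent.Results.MP_c21415_co.EveryAlpha
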